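import Pool.Agent.J6H17.RF.Stm

/-!
# RF-ASMP: the assembly is computable in polynomial time (helper57 for helper17)
-/

set_option autoImplicit false

namespace Pool.Agent.J6H57.RF

open Pool.Agent.NPC Pool.Agent.H628R3.RO Pool.Agent.J6H17.RF

lemma two_sub (σ : ℕ → Tm) : two.sub σ = two := rfl

lemma foldr_sub (σ : ℕ → Tm) (l : List Bool) :
    (l.foldr (fun b t => if b then Tm.succ (.mul two t) else .mul two t) Tm.zero).sub σ =
      l.foldr (fun b t => if b then Tm.succ (.mul two t) else .mul two t) Tm.zero := by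
  induction l with
  | nil => rfl
  | cons b l ih => cases b <;> simp [Tm.sub, two_sub, ih]

lemma num_sub (σ : ℕ → Tm) (n : ℕ) : (num n).sub σ = num n := foldr_sub σ n.bits

lemma mat_sub (Pr μ : Fm) (n : ℕ) (σ : ℕ → Tm) : (mat Pr μ n).sub σ =
    .imp (.le (.len (σ 0)) (num n)) (.imp (.le (.len (σ 1)) (num n))
    (.imp (.le (.len (σ 2)) (num n)) (.imp (.le (.len (σ 3)) (num n))
      (.imp (Pr.sub σ) (μ.sub σ))))) := by
  simp [mat, Fm.sub, Tm.sub, num_sub]

section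
variable {α : Type} [TEnc α] (h1 : S_NUM) (h2 : S_SPOLY)

include h1 in
lemma p_num {n : α → ℕ} (hn : Poly n) : Poly (fun a => num (n a)) := Poly.comp h1.1 hn

include h2 in
lemma p_imp {f g : α → Fm} (hf : Poly f) (hg : Poly g) : Poly (fun a => (f a).imp (g a)) :=
  h2.2.1 α f g hf hg

include h2 in
lemma p_all {f : α → Fm} (x : ℕ) (hf : Poly f) : Poly (fun a => Fm.all x (f a)) :=
  h2.2.2.1 α f x hf

include h2 in
lemma p_le {f g : α → Tm} (hf : Poly f) (hg : Poly g) : Poly (fun a => Fm.le (f a) (g a)) :=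
  h2.2.2.2.2.1 α f g hf hg

include h2 in
lemma p_len {f : α → Tm} (hf : Poly f) : Poly (fun a => Tm.len (f a)) :=
  h2.2.2.2.2.2.1 α f hf

include h1 h2 in
lemma p_lenLe {n m : α → ℕ} (hn : Poly n) (hm : Poly m) : Poly (fun a => lenLe (n a) (m a)) :=
  p_le h2 (p_len h2 (p_num h1 hn)) (p_num h1 hm)

include h1 h2 in
lemma p_mat (Pr μ : Fm) {n : α → ℕ} {σ : α → ℕ → Tm} (hn : Poly n) (hσ : ∀ i, Poly (fun a => σ a i)) :
    Poly (fun a => (mat Pr μ (n a)).sub (σ a)) := by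
  refine Poly.congr (f := fun a => .imp (.le (.len (σ a 0)) (num (n a)))
    (.imp (.le (.len (σ a 1)) (num (n a))) (.imp (.le (.len (σ a 2)) (num (n a)))
    (.imp (.le (.len (σ a 3)) (num (n a))) (.imp (Pr.sub (σ a)) (μ.sub (σ a))))))) ?_
    (fun a => (mat_sub Pr μ (n a) (σ a)).symm)
  have hb : ∀ i, Poly (fun a => Fm.le (.len (σ a i)) (num (n a))) := fun i =>
    p_le h2 (p_len h2 (hσ i)) (p_num h1 hn)
  exact p_imp h2 (hb 0) (p_imp h2 (hb 1) (p_imp h2 (hb 2) (p_imp h2 (hb 3)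
    (p_imp h2 (h2.1 α Pr σ hσ) (h2.1 α μ σ hσ)))))

include h1 h2 in
lemma p_J0 (Pr μ : Fm) {n : α → ℕ} (hn : Poly n) : Poly (fun a => J0 Pr μ (n a)) := by
  have hb : ∀ i, Poly (fun a => Fm.le (.len (.var i)) (num (n a))) := fun i =>
    p_le h2 (NPC.Poly.const _) (p_num h1 hn)
  exact p_all h2 0 (p_all h2 1 (p_all h2 2 (p_all h2 3
    (p_imp h2 (hb 0) (p_imp h2 (hb 1) (p_imp h2 (hb 2) (p_imp h2 (hb 3)
      (p_imp h2 (NPC.Poly.const _) (NPC.Poly.const _)))))))))

include h1 h2 in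
lemma p_J1 (Pr μ : Fm) {n e : α → ℕ} (hn : Poly n) (he : Poly e) :
    Poly (fun a => J1 Pr μ (n a) (e a)) := by
  refine p_all h2 1 (p_all h2 2 (p_all h2 3 (p_mat h1 h2 Pr μ hn (fun i => ?_))))
  by_cases hi : i = 0
  · simp only [s1, hi, if_true]
    exact p_num h1 he
  · simp only [s1, hi, if_false]
    exact NPC.Poly.const _

include h1 h2 in
lemma p_J2 (Pr μ : Fm) {n e u : α → ℕ} (hn : Poly n) (he : Poly e) (hu : Poly u) :
    Poly (fun a => J2 Pr μ (n a) (e a) (u a)) := by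
  refine p_all h2 2 (p_all h2 3 (p_mat h1 h2 Pr μ hn (fun i => ?_)))
  by_cases hi : i = 0
  · simp only [s2, hi, if_true]
    exact p_num h1 he
  by_cases hi1 : i = 1
  · simp only [s2, hi1, one_ne_zero, if_false, if_true]
    exact p_num h1 hu
  · simp only [s2, hi, hi1, if_false]
    exact NPC.Poly.const _

include h1 h2 in
lemma p_J3 (Pr μ : Fm) {n e u x : α → ℕ} (hn : Poly n) (he : Poly e) (hu : Poly u) (hx : Poly x) :
    Poly (fun a => J3 Pr μ (n a) (e a) (u a) (x a)) := by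
  refine p_all h2 3 (p_mat h1 h2 Pr μ hn (fun i => ?_))
  by_cases hi : i = 0
  · simp only [s3, hi, if_true]
    exact p_num h1 he
  by_cases hi1 : i = 1
  · simp only [s3, hi1, one_ne_zero, if_false, if_true]
    exact p_num h1 hu
  by_cases hi2 : i = 2
  · subst hi2
    exact p_num h1 hx
  · simp only [s3, hi, hi1, hi2, if_false]
    exact NPC.Poly.const _

include h1 h2 in
lemma p_at3 (μ : Fm) {e x z : α → ℕ} (he : Poly e) (hx : Poly x) (hz : Poly z) :
    Poly (fun a => at3 μ (e a) (x a) (z a)) := by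
  refine h2.1 α μ (fun a i => if i = 0 then num (e a) else if i = 2 then num (x a) else
    if i = 3 then num (z a) else Tm.var i) (fun i => ?_)
  by_cases hi : i = 0
  · subst hi
    exact p_num h1 he
  by_cases hi2 : i = 2
  · subst hi2
    exact p_num h1 hx
  by_cases hi3 : i = 3
  · subst hi3
    exact p_num h1 hz
  · simp only [hi, hi2, hi3, if_false]
    exact NPC.Poly.const _

include h1 h2 in
lemma p_at4 (φ : Fm) {e u x z : α → ℕ} (he : Poly e) (hu : Poly u) (hx : Poly x) (hz : Poly z) :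
    Poly (fun a => at4 φ (e a) (u a) (x a) (z a)) := by
  refine h2.1 α φ (fun a i => if i = 0 then num (e a) else if i = 1 then num (u a) else
    if i = 2 then num (x a) else if i = 3 then num (z a) else Tm.var i) (fun i => ?_)
  by_cases hi : i = 0
  · subst hi
    exact p_num h1 he
  by_cases hi1 : i = 1
  · subst hi1
    exact p_num h1 hu
  by_cases hi2 : i = 2
  · subst hi2
    exact p_num h1 hx
  by_cases hi3 : i = 3
  · subst hi3
    exact p_num h1 hz
  · simp only [hi, hi1, hi2, hi3, if_false]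
    exact NPC.Poly.const _

lemma p_code {f : α → Fm} (hf : Poly f) : Poly (fun a => (f a).code) := hf

end

theorem main (h1 : S_NUM) (h2 : S_SPOLY) : S_ASMP := by
  intro Pr μ
  have hn : Poly (fun a : AIn => a.1.1) := Poly.fst (Poly.fst Poly.id)
  have he : Poly (fun a : AIn => a.1.2.1) := Poly.fst (Poly.snd (Poly.fst Poly.id))
  have hu : Poly (fun a : AIn => a.1.2.2.1) := Poly.fst (Poly.snd (Poly.snd (Poly.fst Poly.id)))
  have hx : Poly (fun a : AIn => a.1.2.2.2.1) :=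
    Poly.fst (Poly.snd (Poly.snd (Poly.snd (Poly.fst Poly.id))))
  have hz : Poly (fun a : AIn => a.1.2.2.2.2) :=
    Poly.snd (Poly.snd (Poly.snd (Poly.snd (Poly.fst Poly.id))))
  have l0 : Poly (fun a : AIn => a.2.1) := Poly.fst (Poly.snd Poly.id)
  have l1 : Poly (fun a : AIn => a.2.2.1) := Poly.fst (Poly.snd (Poly.snd Poly.id))
  have l2 : Poly (fun a : AIn => a.2.2.2.1) := Poly.fst (Poly.snd (Poly.snd (Poly.snd Poly.id)))
  have l3 : Poly (fun a : AIn => a.2.2.2.2.1) :=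
    Poly.fst (Poly.snd (Poly.snd (Poly.snd (Poly.snd Poly.id))))
  have l4 : Poly (fun a : AIn => a.2.2.2.2.2.1) :=
    Poly.fst (Poly.snd (Poly.snd (Poly.snd (Poly.snd (Poly.snd Poly.id)))))
  have l5 : Poly (fun a : AIn => a.2.2.2.2.2.2) :=
    Poly.snd (Poly.snd (Poly.snd (Poly.snd (Poly.snd (Poly.snd Poly.id)))))
  have j0 := p_J0 h1 h2 Pr μ hn
  have j1 := p_J1 h1 h2 Pr μ hn he
  have j2 := p_J2 h1 h2 Pr μ hn he hu
  have j3 := p_J3 h1 h2 Pr μ hn he hu hx
  have a3 := p_at3 h1 h2 μ he hx hz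
  have a4 := p_at4 h1 h2 Pr he hu hx hz
  have j8 : Poly (fun a : AIn => J8 Pr μ a.1.2.1 a.1.2.2.1 a.1.2.2.2.1 a.1.2.2.2.2) :=
    p_imp h2 a4 a3
  have j7 : Poly (fun a : AIn => J7 Pr μ a.1.1 a.1.2.1 a.1.2.2.1 a.1.2.2.2.1 a.1.2.2.2.2) :=
    p_imp h2 (p_lenLe h1 h2 hz hn) j8
  have j6 : Poly (fun a : AIn => J6 Pr μ a.1.1 a.1.2.1 a.1.2.2.1 a.1.2.2.2.1 a.1.2.2.2.2) :=
    p_imp h2 (p_lenLe h1 h2 hx hn) j7
  have j5 : Poly (fun a : AIn => J5 Pr μ a.1.1 a.1.2.1 a.1.2.2.1 a.1.2.2.2.1 a.1.2.2.2.2) :=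
    p_imp h2 (p_lenLe h1 h2 hu hn) j6
  have j4 : Poly (fun a : AIn => J4 Pr μ a.1.1 a.1.2.1 a.1.2.2.1 a.1.2.2.2.1 a.1.2.2.2.2) :=
    p_imp h2 (p_lenLe h1 h2 he hn) j5
  have nil : Poly (fun _ : AIn => ([] : List T)) := NPC.Poly.const _
  have i34 := Poly.cons (p_code (p_imp h2 j3 j4)) nil
  have i23 := Poly.cons (p_code (p_imp h2 j2 j3)) nil
  have i12 := Poly.cons (p_code (p_imp h2 j1 j2)) nil
  have i01 := Poly.cons (p_code (p_imp h2 j0 j1)) nil
  have q1 := Poly.append i01 l0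
  have q2 := Poly.append i12 (Poly.cons (p_code j1) q1)
  have q3 := Poly.append i23 (Poly.cons (p_code j2) q2)
  have q4 := Poly.append i34 (Poly.cons (p_code j3) q3)
  have q5 := Poly.append (Poly.cons (p_code j4) q4) l1
  have q6 := Poly.append (Poly.cons (p_code j5) q5) l2
  have q7 := Poly.append (Poly.cons (p_code j6) q6) l3
  have q8 := Poly.append (Poly.cons (p_code j7) q7) l4
  have q9 := Poly.append (Poly.cons (p_code j8) q8) l5
  exact Poly.cons (p_code a3) q9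

end Pool.Agent.J6H57.RF
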