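import Pool.Agent.J6H50.RF.Stm

/-!
# RF-02: soundness of the calculus (helper57 for helper50)
-/

set_option autoImplicit false

namespace Pool.Agent.J6H57.RF02

open Pool.Agent.J6H50.RF Pool.Agent.NPC

variable {M : Type} (A : Str M)

lemma val_congr (t : Tm) (v w : ℕ → M) (h : ∀ i, t.Occ i → v i = w i) : t.val A v = t.val A w := by
  induction t with
  | var i => exact h i rfl
  | zero => rfl
  | suc t ih => exact congrArg A.suc (ih h)
  | add s t ihs iht =>
    exact congrArg₂ A.add (ihs fun i hi => h i (Or.inl hi)) (iht fun i hi => h i (Or.inr hi))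
  | mul s t ihs iht =>
    exact congrArg₂ A.mul (ihs fun i hi => h i (Or.inl hi)) (iht fun i hi => h i (Or.inr hi))
  | smash s t ihs iht =>
    exact congrArg₂ A.smash (ihs fun i hi => h i (Or.inl hi)) (iht fun i hi => h i (Or.inr hi))
  | len t ih => exact congrArg A.len (ih h)
  | half t ih => exact congrArg A.half (ih h)

lemma sat_congr (φ : Fm) : ∀ (v w : ℕ → M), (∀ i, φ.Occ i → v i = w i) → (φ.Sat A v ↔ φ.Sat A w) := by
  induction φ with
  | bot => intro v w _; exact Iff.rfl
  | eq s t =>
    intro v w h
    have h1 := val_congr A s v w fun i hi => h i (Or.inl hi)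
    have h2 := val_congr A t v w fun i hi => h i (Or.inr hi)
    simp only [Fm.Sat, h1, h2]
  | le s t =>
    intro v w h
    have h1 := val_congr A s v w fun i hi => h i (Or.inl hi)
    have h2 := val_congr A t v w fun i hi => h i (Or.inr hi)
    simp only [Fm.Sat, h1, h2]
  | imp φ ψ ih1 ih2 =>
    intro v w h
    have h1 := ih1 v w fun i hi => h i (Or.inl hi)
    have h2 := ih2 v w fun i hi => h i (Or.inr hi)
    simp only [Fm.Sat, h1, h2]
  | all j φ ih =>
    intro v w h
    simp only [Fm.Sat]
    refine forall_congr' fun x => ih _ _ fun i hi => ?_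
    by_cases hij : i = j
    · subst hij
      rw [Function.update_self, Function.update_self]
    · rw [Function.update_of_ne hij, Function.update_of_ne hij]
      exact h i (Or.inr hi)

lemma val_sub (a : Tm) (i : ℕ) (r : Tm) (v : ℕ → M) :
    (a.sub i r).val A v = a.val A (Function.update v i (r.val A v)) := by
  induction a with
  | var j =>
    by_cases hij : j = i
    · subst hij
      simp [Tm.sub, Tm.val]
    · simp [Tm.sub, Tm.val, hij]
  | zero => rfl
  | suc t ih => exact congrArg A.suc ih
  | add s t ihs iht => exact congrArg₂ A.add ihs iht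
  | mul s t ihs iht => exact congrArg₂ A.mul ihs iht
  | smash s t ihs iht => exact congrArg₂ A.smash ihs iht
  | len t ih => exact congrArg A.len ih
  | half t ih => exact congrArg A.half ih

lemma log_sound (φ : Fm) (h : Log φ) (v : ℕ → M) : φ.Sat A v := by
  cases h with
  | k φ ψ => exact fun h1 _ => h1
  | s φ ψ χ => exact fun h1 h2 h3 => h1 h3 (h2 h3)
  | dn φ => exact fun h1 => Classical.byContradiction fun h2 => h1 h2
  | spec i φ =>
    intro h1
    have h2 := h1 (v i)
    rwa [Function.update_eq_self] at h2
  | dist i φ ψ => exact fun h1 h2 x => h1 x (h2 x)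
  | vac i φ hi =>
    intro h1 x
    refine (sat_congr A φ _ _ fun j hj => ?_).1 h1
    have hji : j ≠ i := by rintro rfl; exact hi hj
    rw [Function.update_of_ne hji]
  | ex i t hi =>
    intro h1
    refine h1 (t.val A v) ?_
    simp only [Fm.Sat, Tm.val]
    rw [Function.update_self]
    refine val_congr A t _ _ fun j hj => ?_
    have hji : j ≠ i := by rintro rfl; exact hi hj
    rw [Function.update_of_ne hji]
  | refl t => rfl
  | leibEq i s t a b =>
    intro h1 h2
    simp only [Fm.Sat, val_sub] at h1 h2 ⊢
    rw [← h1]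
    exact h2
  | leibLe i s t a b =>
    intro h1 h2
    simp only [Fm.Sat, val_sub] at h1 h2 ⊢
    rw [← h1]
    exact h2

theorem m02 : S_sound := by
  intro M A T hT P
  induction P with
  | nil => intro _ φ hφ; simp at hφ
  | cons ψ P ih =>
    rintro ⟨hP, hψ⟩ φ hφ v
    rcases List.mem_cons.1 hφ with rfl | hφ
    · rcases hψ with h | h | ⟨χ, h1, h2⟩ | ⟨i, χ, h1, rfl⟩
      · exact hT _ h v
      · exact log_sound A _ h v
      · exact ih hP _ h2 v (ih hP _ h1 v)
      · exact fun x => ih hP _ h1 _
    · exact ih hP φ hφ v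

end Pool.Agent.J6H57.RF02
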